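import Pool.Agent.KS6_88.NU.Many

/-!
# MP_948e80_an: infinitely many weak solutions of the porous medium flow with nonlocal pressure

For `N = 3`, `m = 3/2`, `s = 3/4` and the indicator function of the unit ball as initial datum there
are, on every time interval `(0, T)` with `0 < T ≤ 1`, infinitely many pairwise different weak
solutions.
-/

set_option autoImplicit false

open MeasureTheory Set Filter Topology

namespace Pool.Agent.Results.MP_948e80_an.InfinitelyMany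

/-- `ℝᴺ`. -/
abbrev E (N : ℕ) : Type := EuclideanSpace ℝ (Fin N)

/-- The constant of the Riesz kernel of `(-Δ)^{-s}` in `ℝᴺ`. -/
noncomputable def rieszConst (N : ℕ) (s : ℝ) : ℝ :=
  Real.Gamma ((N : ℝ) / 2 - s) / ((4 : ℝ) ^ s * Real.pi ^ ((N : ℝ) / 2) * Real.Gamma s)

/-- The integral of `w(·, t)` against `|x - y|^{2s - N}` (the pressure without its constant). -/
noncomputable def pot (N : ℕ) (s : ℝ) (w : E N × ℝ → ℝ) (p : E N × ℝ) : ℝ :=
  ∫ y : E N, ‖p.1 - y‖ ^ (2 * s - (N : ℝ)) * w (y, p.2)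

/-- The space-time cylinder `ℝᴺ × (0, T)`. -/
def cyl (N : ℕ) (T : ℝ) : Set (E N × ℝ) := (univ : Set (E N)) ×ˢ Ioo (0 : ℝ) T

/-- The Riesz potential of `w(·, t)` is defined almost everywhere and locally integrable. -/
def HasPotential (N : ℕ) (s T : ℝ) (w : E N × ℝ → ℝ) : Prop :=
  (∀ᵐ p ∂((volume : Measure (E N × ℝ)).restrict (cyl N T)),
    Integrable (fun y : E N => ‖p.1 - y‖ ^ (2 * s - (N : ℝ)) * w (y, p.2))) ∧
  LocallyIntegrableOn (pot N s w) (cyl N T) (volume : Measure (E N × ℝ))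

/-- `G` is the weak (spatial) gradient of the pressure `rieszConst * pot w`. -/
def IsPressureGradient (N : ℕ) (s T : ℝ) (w : E N × ℝ → ℝ) (G : E N × ℝ → E N) : Prop :=
  LocallyIntegrableOn G (cyl N T) (volume : Measure (E N × ℝ)) ∧
  (∀ ψ : E N × ℝ → ℝ, ContDiff ℝ 1 ψ → HasCompactSupport ψ → tsupport ψ ⊆ cyl N T →
    ∀ e : E N, ∫ p : E N × ℝ, rieszConst N s * pot N s w p * fderiv ℝ ψ p (e, (0 : ℝ))
      = - ∫ p : E N × ℝ, inner ℝ (G p) e * ψ p)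

/-- The weak identity with datum `u₀` for test functions `φ` of class `C¹` supported in `t < T`. -/
def WeakIdentity (N : ℕ) (m T : ℝ) (u₀ : E N → ℝ) (w : E N × ℝ → ℝ) (G : E N × ℝ → E N) : Prop :=
  ∀ φ : E N × ℝ → ℝ, ContDiff ℝ 1 φ → HasCompactSupport φ → tsupport φ ⊆ {p | p.2 < T} →
    IntegrableOn (fun p => w p * fderiv ℝ φ p ((0 : E N), (1 : ℝ))) (cyl N T) volume ∧
    IntegrableOn (fun p => w p ^ (m - 1) * fderiv ℝ φ p (G p, (0 : ℝ))) (cyl N T) volume ∧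
    (∫ p in cyl N T, w p * fderiv ℝ φ p ((0 : E N), (1 : ℝ)))
      - (∫ p in cyl N T, w p ^ (m - 1) * fderiv ℝ φ p (G p, (0 : ℝ)))
      + (∫ x : E N, u₀ x * φ (x, (0 : ℝ))) = 0

/-- Nonnegative weak solutions of `∂ₜ w = ∇·(w^{m-1} ∇ (-Δ)^{-s} w)` on `ℝᴺ × (0,T)` with datum `u₀`,
as in the problem. -/
def IsWeakSolution (N : ℕ) (m s T : ℝ) (u₀ : E N → ℝ) (w : E N × ℝ → ℝ) : Prop :=
  (∀ p, 0 ≤ w p) ∧ LocallyIntegrableOn w (cyl N T) (volume : Measure (E N × ℝ)) ∧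
  HasPotential N s T w ∧
  ∃ G : E N × ℝ → E N, IsPressureGradient N s T w G ∧
    LocallyIntegrableOn (fun p => w p ^ (m - 1) • G p) (cyl N T) (volume : Measure (E N × ℝ)) ∧
    WeakIdentity N m T u₀ w G

/-- The indicator function of the closed unit ball. -/
noncomputable def ballDatum (N : ℕ) (x : E N) : ℝ := if ‖x‖ ≤ 1 then 1 else 0

theorem cyl_mono {N : ℕ} {T T' : ℝ} (h : T ≤ T') : cyl N T ⊆ cyl N T' :=
  prod_mono Subset.rfl (Ioo_subset_Ioo le_rfl h)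

/-- restriction to a shorter time interval -/
theorem IsWeakSolution.mono {N : ℕ} {m s T T' : ℝ} {u₀ : E N → ℝ} {w : E N × ℝ → ℝ}
    (h : IsWeakSolution N m s T' u₀ w) (hT : T ≤ T') : IsWeakSolution N m s T u₀ w := by
  obtain ⟨h1, h2, ⟨h3, h4⟩, G, ⟨h5, h7⟩, h6, h8⟩ := h
  have hsub := cyl_mono (N := N) hT
  refine ⟨h1, h2.mono_set hsub, ⟨ae_mono (Measure.restrict_mono hsub le_rfl) h3,
    h4.mono_set hsub⟩, G, ⟨h5.mono_set hsub, fun ψ a b c e => h7 ψ a b (c.trans hsub) e⟩,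
    h6.mono_set hsub, ?_⟩
  intro φ a b c
  have hc' : tsupport φ ⊆ {p : E N × ℝ | p.2 < T'} := fun p hp => lt_of_lt_of_le (c hp) hT
  obtain ⟨k1, k2, k3⟩ := h8 φ a b hc'
  refine ⟨k1.mono_set hsub, k2.mono_set hsub, ?_⟩
  have hz : ∀ p ∈ cyl N T' \ cyl N T, fderiv ℝ φ p = 0 := by
    rintro p ⟨hp, hp'⟩
    have hnot : p ∉ tsupport φ := by
      intro hm
      apply hp'
      exact ⟨mem_univ _, hp.2.1, c hm⟩
    exact image_eq_zero_of_notMem_tsupport (fun h => hnot (tsupport_fderiv_subset ℝ h))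
  have hm' : MeasurableSet (cyl N T') := MeasurableSet.univ.prod measurableSet_Ioo
  have e1 : ∫ p in cyl N T', w p * fderiv ℝ φ p ((0 : E N), (1 : ℝ)) =
      ∫ p in cyl N T, w p * fderiv ℝ φ p ((0 : E N), (1 : ℝ)) := by
    apply setIntegral_eq_of_subset_of_forall_sdiff_eq_zero hm' hsub
    intro p hp
    rw [hz p hp]; simp
  have e2 : ∫ p in cyl N T', w p ^ (m - 1) * fderiv ℝ φ p (G p, (0 : ℝ)) =
      ∫ p in cyl N T, w p ^ (m - 1) * fderiv ℝ φ p (G p, (0 : ℝ)) := by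
    apply setIntegral_eq_of_subset_of_forall_sdiff_eq_zero hm' hsub
    intro p hp
    rw [hz p hp]; simp
  rw [← e1, ← e2]
  exact k3

open Pool.Agent.H329R3.NU in
theorem weak_one {κ ε : ℝ} {w : ℝ × ℝ → ℝ} (hκ : 0 < κ) (hw : CoreSol AA κ ε w) :
    IsWeakSolution 3 (3 / 2) (3 / 4) 1 (ballDatum 3) (uu κ w) := by
  have h := isWeak pot_all bounds_all wgrad_all weak3_all hκ hw
  have hexp : (2 * (3 / 4 : ℝ) - ((3 : ℕ) : ℝ)) = -(3 / 2) := by norm_num
  obtain ⟨h1, h2, h3, h4, G, h5, h6, h7, h8⟩ := h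
  unfold IsWeakSolution HasPotential IsPressureGradient pot
  rw [hexp]
  exact ⟨h1, h2, ⟨h3, h4⟩, G, ⟨h5, h7⟩, h6, h8⟩

/-- **Main theorem.** For `N = 3`, `m = 3/2`, `s = 3/4`, every `0 < T ≤ 1` and the indicator function
of the closed unit ball as datum (which is nonnegative and in `L¹ ∩ L^∞`) there is a sequence of weak
solutions no two of which agree almost everywhere on `ℝ³ × (0,T)`. -/
theorem result :
    (∀ x, 0 ≤ ballDatum 3 x) ∧ MemLp (ballDatum 3) 1 volume ∧ MemLp (ballDatum 3) ⊤ volume ∧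
    ∀ T : ℝ, 0 < T → T ≤ 1 → ∃ u : ℕ → E 3 × ℝ → ℝ,
      (∀ k, IsWeakSolution 3 (3 / 2) (3 / 4) T (ballDatum 3) (u k)) ∧
      ∀ k l, k ≠ l →
        ¬ (u k =ᵐ[(volume : Measure (E 3 × ℝ)).restrict (cyl 3 T)] u l) := by
  refine ⟨Pool.Agent.H329R3.NU.u0_nonneg, Pool.Agent.H329R3.NU.u0_memLp 1,
    Pool.Agent.H329R3.NU.u0_memLp ⊤, ?_⟩
  intro T hT hT1
  obtain ⟨κ, ε, w, hκ, hw, hd⟩ := Pool.Agent.KS6_88.NU.exists_seq T hT hT1
  exact ⟨fun k => Pool.Agent.H329R3.NU.uu (κ k) (w k),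
    fun k => (weak_one (hκ k) (hw k)).mono hT1, hd⟩

end Pool.Agent.Results.MP_948e80_an.InfinitelyMany
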